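import Pool.Agent.Lib.MP_a7c449_an.Final

set_option autoImplicit false

/-!
# Every separable complex Banach space containing `c₀` can be renormed with the largest gap

`X` is a separable complex Banach space with a subspace isomorphic to `c₀`. It is isomorphic to a
Banach space `Y` (that is, it has an equivalent norm) all of whose polynomial numerical indices are
one, while the indices of `Y**` have the least values possible for complex spaces:
`k^(k/(1-k))` for every `k ≥ 2` (in particular `1/4` for `k = 2`), and `1/e` for `k = 1`.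
-/

namespace Pool.Agent.Results.MP_a7c449_an.ComplexRenorming

open Pool.Agent.Lib.MP_a7c449_an
open scoped ZeroAtInfty

universe u

theorem result (X : Type u) [NormedAddCommGroup X] [NormedSpace ℂ X] [CompleteSpace X]
    [TopologicalSpace.SeparableSpace X]
    (hX : ∃ (j : C₀(ℕ, ℂ) →L[ℂ] X) (c : ℝ), 0 < c ∧ ∀ z, c * ‖z‖ ≤ ‖j z‖) :
    ∃ (Y : Type) (_ : NormedAddCommGroup Y) (_ : NormedSpace ℂ Y) (_ : CompleteSpace Y),
      Nonempty (X ≃L[ℂ] Y) ∧
      (∀ k, numIndex ℂ Y k = 1) ∧
      numIndex ℂ (StrongDual ℂ (StrongDual ℂ Y)) 1 = Real.exp (-1) ∧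
      ∀ k : ℕ, 2 ≤ k →
        numIndex ℂ (StrongDual ℂ (StrongDual ℂ Y)) k = (k : ℝ) ^ ((k : ℝ) / (1 - (k : ℝ))) :=
  complexCase X hX

end Pool.Agent.Results.MP_a7c449_an.ComplexRenorming
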