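import Pool.Agent.Lib.MP_a7c449_an.Range.FinalB

set_option autoImplicit false
set_option maxSynthPendingDepth 3

/-!
# MP_a7c449_an: decoupling the polynomial numerical indices of a space from those of its bidual

Complex scalars. The definitions (`polyNorm`, `numRadius`, `numIndex`) are in
`Pool/Agent/Lib/MP_a7c449_an/Defs.lean`.
-/

namespace Pool.Agent.Results.MP_a7c449_an.Decoupling

open Pool.Agent.Lib.MP_a7c449_an
open scoped ZeroAtInfty

universe u v

/-- For a separable Banach space `F ≠ 0` and a Banach space `G ≠ 0` there is one Banach space `X`, isomorphic to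
`(c₀ × F) × G`, with `n_k(X) = n_k(G)` and `n_k(X**) = min (n_k(F**)) (n_k(G**))` for all `k` at once. -/
theorem result (F : Type u) (G : Type v) [NormedAddCommGroup F] [NormedSpace ℂ F] [CompleteSpace F]
    [TopologicalSpace.SeparableSpace F] [Nontrivial F]
    [NormedAddCommGroup G] [NormedSpace ℂ G] [CompleteSpace G] [Nontrivial G] :
    ∃ (X : Type (max u v)) (_ : NormedAddCommGroup X) (_ : NormedSpace ℂ X) (_ : CompleteSpace X),
      Nonempty (X ≃L[ℂ] ((C₀(ℕ, ℂ) × F) × G)) ∧ ∀ k : ℕ,
        numIndex ℂ X k = numIndex ℂ G k ∧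
        numIndex ℂ (StrongDual ℂ (StrongDual ℂ X)) k =
          min (numIndex ℂ (StrongDual ℂ (StrongDual ℂ F)) k)
            (numIndex ℂ (StrongDual ℂ (StrongDual ℂ G)) k) :=
  Range.decouple F G

end Pool.Agent.Results.MP_a7c449_an.Decoupling
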