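import Pool.Agent.Lib.MP_a7c449_an.Range.FinalB

set_option autoImplicit false
set_option maxSynthPendingDepth 3

/-!
# MP_a7c449_an: the exact range of the polynomial numerical indices of a space and its bidual

Complex scalars. The definitions (`polyNorm`, `numRadius`, `numIndex`) are in
`Pool/Agent/Lib/MP_a7c449_an/Defs.lean`.
-/

namespace Pool.Agent.Results.MP_a7c449_an.ExactRange

open Pool.Agent.Lib.MP_a7c449_an
open scoped ZeroAtInfty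

universe u

/-- (1) For all complex normed spaces `k^(k/(1-k)) ≤ n_k(X**) ≤ n_k(X) ≤ 1`. (2) All pairs
`k^(k/(1-k)) ≤ s ≤ t ≤ 1` occur for an equivalent norm on `c₀`, so the range is exactly this triangle. (3) On every
separable space `Z` containing `c₀` all such pairs with `s ≤ n_k(Z**)` occur for an equivalent norm. -/
theorem result :
    (∀ (X : Type u) [NormedAddCommGroup X] [NormedSpace ℂ X] [Nontrivial X] (k : ℕ), 2 ≤ k →
      (k : ℝ) ^ ((k : ℝ) / (1 - (k : ℝ))) ≤ numIndex ℂ (StrongDual ℂ (StrongDual ℂ X)) k ∧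
      numIndex ℂ (StrongDual ℂ (StrongDual ℂ X)) k ≤ numIndex ℂ X k ∧
      numIndex ℂ X k ≤ 1) ∧
    (∀ (k : ℕ) (s t : ℝ), 2 ≤ k → (k : ℝ) ^ ((k : ℝ) / (1 - (k : ℝ))) ≤ s → s ≤ t → t ≤ 1 →
      ∃ (X : Type) (_ : NormedAddCommGroup X) (_ : NormedSpace ℂ X) (_ : CompleteSpace X),
        Nonempty (C₀(ℕ, ℂ) ≃L[ℂ] X) ∧ numIndex ℂ X k = t ∧
        numIndex ℂ (StrongDual ℂ (StrongDual ℂ X)) k = s) ∧
    (∀ (Z : Type u) [NormedAddCommGroup Z] [NormedSpace ℂ Z] [CompleteSpace Z]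
      [TopologicalSpace.SeparableSpace Z],
      (∃ (j : C₀(ℕ, ℂ) →L[ℂ] Z) (c : ℝ), 0 < c ∧ ∀ z, c * ‖z‖ ≤ ‖j z‖) →
      ∀ (k : ℕ) (s t : ℝ), 2 ≤ k → (k : ℝ) ^ ((k : ℝ) / (1 - (k : ℝ))) ≤ s →
        s ≤ numIndex ℂ (StrongDual ℂ (StrongDual ℂ Z)) k → s ≤ t → t ≤ 1 →
        ∃ (X : Type u) (_ : NormedAddCommGroup X) (_ : NormedSpace ℂ X) (_ : CompleteSpace X),
          Nonempty (Z ≃L[ℂ] X) ∧ numIndex ℂ X k = t ∧
          numIndex ℂ (StrongDual ℂ (StrongDual ℂ X)) k = s) := by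
  refine ⟨?_, ?_, ?_⟩
  · intro X _ _ _ k hk
    have : Nontrivial (StrongDual ℂ (StrongDual ℂ X)) := by
      obtain ⟨x, hx⟩ := exists_ne (0 : X)
      refine ⟨⟨NormedSpace.inclusionInDoubleDualLi ℂ (E := X) x, 0, fun h => hx ?_⟩⟩
      have h1 := (NormedSpace.inclusionInDoubleDualLi ℂ (E := X)).norm_map x
      rw [h, norm_zero] at h1
      exact norm_eq_zero.1 h1.symm
    exact ⟨le_numIndex_complex hk, Range.numIndex_bid_le k, Range.numIndex_le_one⟩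
  · intro k s t hk h1 h2 h3
    obtain ⟨m, rfl⟩ : ∃ m, k = m + 2 := ⟨k - 2, by omega⟩
    rw [← Range.cc_eq'] at h1
    obtain ⟨X, i1, i2, i3, ⟨T⟩, h4, h5⟩ := Range.range m h1 h2 h3
    exact ⟨X, i1, i2, i3, ⟨T.symm⟩, h4, h5⟩
  · intro Z _ _ _ _ hZ k s t hk h1 h2 h3 h4
    obtain ⟨m, rfl⟩ : ∃ m, k = m + 2 := ⟨k - 2, by omega⟩
    rw [← Range.cc_eq'] at h1
    obtain ⟨X, i1, i2, i3, ⟨T⟩, h5, h6⟩ := Range.range_sep Z hZ m h1 h2 h3 h4
    exact ⟨X, i1, i2, i3, ⟨T.symm⟩, h5, h6⟩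

end Pool.Agent.Results.MP_a7c449_an.ExactRange
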