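import Pool.Agent.Lib.MP_a7c449_an.Final

set_option autoImplicit false

/-!
# Every separable real Banach space containing `c₀` can be renormed with a gap at every order

`X` is a separable real Banach space with a subspace isomorphic to `c₀`. It is isomorphic to a Banach
space `Y` (that is, it has an equivalent norm) with `n^(k)(Y) = 2^(1-k)` and `n^(k)(Y**) = 0` for every
`k ≥ 1`; in particular `n^(2)(Y) = 1/2` and `n^(2)(Y**) = 0`.
-/

namespace Pool.Agent.Results.MP_a7c449_an.RealRenorming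

open Pool.Agent.Lib.MP_a7c449_an
open scoped ZeroAtInfty

universe u

theorem result (X : Type u) [NormedAddCommGroup X] [NormedSpace ℝ X] [CompleteSpace X]
    [TopologicalSpace.SeparableSpace X]
    (hX : ∃ (j : C₀(ℕ, ℝ) →L[ℝ] X) (c : ℝ), 0 < c ∧ ∀ z, c * ‖z‖ ≤ ‖j z‖) :
    ∃ (Y : Type) (_ : NormedAddCommGroup Y) (_ : NormedSpace ℝ Y) (_ : CompleteSpace Y),
      Nonempty (X ≃L[ℝ] Y) ∧
      ∀ k : ℕ, k ≠ 0 → numIndex ℝ Y k = (1 / 2) ^ (k - 1) ∧
        numIndex ℝ (StrongDual ℝ (StrongDual ℝ Y)) k = 0 :=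
  realCase X hX

end Pool.Agent.Results.MP_a7c449_an.RealRenorming
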